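import Pool.Agent.R601.CZ.Prod

/-!
# Products of discrete spaces, in particular Cantor cubes, are strongly zero-dimensional in ZF

The models `ZermeloAtoms` of Zermelo set theory with atoms (in particular all models of ZF) are
defined in `Pool.Agent.Helper672.ZFA.Statement`, finite sets of a model (`FiniteIn`) in
`Pool.Agent.Y9.ZR.Defs`, fields of real numbers of a model (`RealField`), product spaces
(`IsProdSpace`) and strongly zero-dimensional spaces (`StronglyZeroDim`) in
`Pool.Agent.R602.ZR.Defs`, `Pool.Agent.R602.ZR.Prod` and `Pool.Agent.R602.ZR.RcDefs`, and discrete
spaces (`IsDiscreteIn`) in `Pool.Agent.R601.CZ.Prod`.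

The proof is done inside an arbitrary, possibly nonstandard, model, without any choice. Let `f` be
a continuous real function on the product and let `W k` be the set of the points `x` with a set `G`
of at most `k` indices such that `1 / 3 ≤ f` at all points that agree with `x` on `G`. The key lemma
is that `W k` is clopen; so is the set `V k` defined in the same way with `f ≤ 2 / 3`. The clopen
set that separates the points with `f = 0` from those with `f = 1` consists of the points that
belong to some `V k` and to none of the `W m` with `m < k`.
-/

namespace Pool.Agent.Results.MP_fa4505_lc.CubesInZF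

open Pool.Agent.Helper672.ZFA Pool.Agent.R602.ZR Pool.Agent.R601.CZ

universe u

/-- In every model of Zermelo set theory with atoms (hence in every model of ZF), the product
`(P, σ)` of any family of discrete spaces `(X j, τ j)`, `j` in `J`, is strongly zero-dimensional.
(The Cantor cube `2 ^ J` is the case where all `X j` are `{0, 1}`.) -/
theorem result (M : Type u) [L.Structure M] [ZermeloAtoms M] (R : M) [Field (El R)]
    [LinearOrder (El R)] [IsStrictOrderedRing (El R)] (hR : RealField R) (J : M)
    (X τ : El J → M) (_hX : IsFamily X) (_hτ : IsFamily τ)
    (hd : ∀ j, IsDiscreteIn (X j) (τ j)) (P σ : M) (hP : IsProdSpace X τ P σ) :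
    StronglyZeroDim R P σ := by
  have : IsModel M := ZermeloAtoms.isModel
  exact stronglyZeroDim_prod hR hd hP

end Pool.Agent.Results.MP_fa4505_lc.CubesInZF
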